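import Mathlib

set_option autoImplicit false

/-!
Decomposition of idempotents and the exchange property for finite sums of objects with local
endomorphism rings.
-/

namespace Pool.Agent.H494R3.EX

open CategoryTheory

variable {𝒜 : Type} [Category.{0} 𝒜] [Preadditive 𝒜]

/-- direct sum data -/
structure IsBi (x y z : 𝒜) (i₁ : x ⟶ z) (i₂ : y ⟶ z) (o₁ : z ⟶ x) (o₂ : z ⟶ y) : Prop where
  h11 : i₁ ≫ o₁ = 𝟙 x
  h12 : i₁ ≫ o₂ = 0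
  h21 : i₂ ≫ o₁ = 0
  h22 : i₂ ≫ o₂ = 𝟙 y
  hs : o₁ ≫ i₁ + o₂ ≫ i₂ = 𝟙 z

def Inv {x : 𝒜} (a : x ⟶ x) : Prop := ∃ b, a ≫ b = 𝟙 x ∧ b ≫ a = 𝟙 x

def Loc (x : 𝒜) : Prop := ∀ a : x ⟶ x, Inv a ∨ Inv (𝟙 x - a)

inductive Built : ℕ → 𝒜 → Prop
  | zero (z : 𝒜) (h : 𝟙 z = 0) : Built 0 z
  | succ (n : ℕ) (x y z : 𝒜) (hx : Loc x) (i₁ : x ⟶ z) (i₂ : y ⟶ z) (o₁ : z ⟶ x) (o₂ : z ⟶ y)
      (hb : IsBi x y z i₁ i₂ o₁ o₂) (h : Built n y) : Built (n + 1) z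

/-- peeling off a local summand -/
theorem peel {x y z : 𝒜} {i₁ : x ⟶ z} {i₂ : y ⟶ z} {o₁ : z ⟶ x} {o₂ : z ⟶ y}
    (hb : IsBi x y z i₁ i₂ o₁ o₂) {g : z ⟶ z} (hg : g ≫ g = g) (ha : Inv (i₁ ≫ g ≫ o₁)) :
    ∃ (α : x ⟶ z) (β : z ⟶ x) (F : z ⟶ z) (p : z ⟶ y) (q : y ⟶ z),
      α ≫ β = 𝟙 x ∧ β ≫ α = F ∧ g ≫ F = F ∧ F ≫ g = F ∧ F ≫ F = F ∧
      α ≫ g = α ∧ g ≫ β = β ∧ α ≫ F = α ∧ F ≫ β = β ∧
      q ≫ p = 𝟙 y ∧ p ≫ q = 𝟙 z - F := by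
  obtain ⟨b, hb1, hb2⟩ := ha
  have hb1' : ∀ {w : 𝒜} (h : x ⟶ w), i₁ ≫ g ≫ o₁ ≫ b ≫ h = h := by
    intro w h
    have := congrArg (· ≫ h) hb1
    simpa using this
  have hgg : ∀ {w : 𝒜} (h : z ⟶ w), g ≫ g ≫ h = g ≫ h := by
    intro w h
    rw [← Category.assoc, hg]
  have hb1'' : i₁ ≫ g ≫ o₁ ≫ b = 𝟙 x := by simpa using hb1
  have hb2' : b ≫ i₁ ≫ g ≫ o₁ = 𝟙 x := hb2
  have hb2'' : ∀ {w : 𝒜} (h : x ⟶ w), b ≫ i₁ ≫ g ≫ o₁ ≫ h = h := by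
    intro w h
    have := congrArg (· ≫ h) hb2'
    simpa using this
  have h21' : ∀ {w : 𝒜} (h : x ⟶ w), i₂ ≫ o₁ ≫ h = 0 := by
    intro w h
    rw [← Category.assoc, hb.h21, Limits.zero_comp]
  obtain ⟨F, hF⟩ : ∃ F : z ⟶ z, F = g ≫ o₁ ≫ b ≫ i₁ ≫ g := ⟨_, rfl⟩
  obtain ⟨G, hG⟩ : ∃ G : z ⟶ z, G = o₁ ≫ b ≫ i₁ ≫ g := ⟨_, rfl⟩
  have hoi : o₂ ≫ i₂ = 𝟙 z - o₁ ≫ i₁ := by
    rw [← hb.hs]; abel
  have hGo : G ≫ o₁ = o₁ := by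
    rw [hG]
    simp only [Category.assoc]
    rw [hb2', Category.comp_id]
  have hGF : G ≫ F = G := by
    rw [hG, hF]
    simp only [Category.assoc]
    rw [hgg, hb2'']
  have hFG : F ≫ G = F := by
    rw [hG, hF]
    simp only [Category.assoc]
    rw [hb1' (i₁ ≫ g)]
  refine ⟨i₁ ≫ g, g ≫ o₁ ≫ b, F, (𝟙 z - G) ≫ o₂, i₂ ≫ (𝟙 z - F), ?_, ?_, ?_, ?_, ?_, ?_, ?_,
    ?_, ?_, ?_, ?_⟩
  · simp only [Category.assoc]
    rw [hgg, hb1'']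
  · simp only [Category.assoc, hF]
  · rw [hF, hgg]
  · rw [hF]
    simp only [Category.assoc, hg]
  · rw [hF]
    simp only [Category.assoc]
    rw [hgg, hb1' (i₁ ≫ g)]
  · simp only [Category.assoc, hg]
  · rw [hgg]
  · rw [hF]
    simp only [Category.assoc]
    rw [hgg, hb1' (i₁ ≫ g)]
  · rw [hF]
    simp only [Category.assoc]
    rw [hgg, hb1'', Category.comp_id]
  · have h1 : (𝟙 z - F) ≫ (𝟙 z - G) = 𝟙 z - G := by
      rw [Preadditive.sub_comp, Preadditive.comp_sub, Preadditive.comp_sub, hFG]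
      simp
    have h2 : i₂ ≫ G = 0 := by rw [hG, h21']
    calc (i₂ ≫ (𝟙 z - F)) ≫ (𝟙 z - G) ≫ o₂ = i₂ ≫ ((𝟙 z - F) ≫ (𝟙 z - G)) ≫ o₂ := by
          simp only [Category.assoc]
      _ = i₂ ≫ o₂ - (i₂ ≫ G) ≫ o₂ := by
          rw [h1, Preadditive.sub_comp, Preadditive.comp_sub, Category.id_comp, Category.assoc]
      _ = 𝟙 y := by rw [h2, hb.h22, Limits.zero_comp, sub_zero]
  · have h1 : (𝟙 z - G) ≫ o₁ = 0 := by
      rw [Preadditive.sub_comp, hGo, Category.id_comp, sub_self]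
    calc ((𝟙 z - G) ≫ o₂) ≫ i₂ ≫ (𝟙 z - F) = ((𝟙 z - G) ≫ (o₂ ≫ i₂)) ≫ (𝟙 z - F) := by
          simp only [Category.assoc]
      _ = (𝟙 z - G) ≫ (𝟙 z - F) := by
          have h3 : (𝟙 z - G) ≫ (𝟙 z - o₁ ≫ i₁) = 𝟙 z - G := by
            rw [Preadditive.comp_sub, ← Category.assoc, h1]; simp
          rw [hoi, h3]
      _ = 𝟙 z - F := by
          rw [Preadditive.sub_comp, Preadditive.comp_sub, Preadditive.comp_sub, hGF]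
          simp

/-- splitting of idempotents with explicit control -/
theorem split_idem
    (HB : ∀ x y : 𝒜, ∃ (z : 𝒜) (i₁ : x ⟶ z) (i₂ : y ⟶ z) (o₁ : z ⟶ x) (o₂ : z ⟶ y),
      IsBi x y z i₁ i₂ o₁ o₂) :
    ∀ (n : ℕ) (z : 𝒜), Built n z → ∀ e : z ⟶ z, e ≫ e = e →
      ∃ (r : 𝒜) (α : r ⟶ z) (β : z ⟶ r), α ≫ β = 𝟙 r ∧ β ≫ α = e := by
  intro n z hz
  induction hz with
  | zero z h =>
    intro e _
    refine ⟨z, 𝟙 z, 𝟙 z, by simp, ?_⟩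
    have : e = 0 := by rw [← Category.id_comp e, h, Limits.zero_comp]
    rw [this, ← h]
    simp
  | succ n x y z hx i₁ i₂ o₁ o₂ hb _ ih =>
    intro e he
    rcases hx (i₁ ≫ e ≫ o₁) with hinv | hinv
    · obtain ⟨α, β, F, p, q, h1, h2, h3, h4, h5, h6, h7, h8, h9, h10, h11⟩ := peel hb he hinv
      have hd : (e - F) ≫ (e - F) = e - F := by
        rw [Preadditive.sub_comp, Preadditive.comp_sub, Preadditive.comp_sub, he, h3, h4, h5]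
        simp
      have hd1 : (e - F) ≫ (𝟙 z - F) = e - F := by
        rw [Preadditive.sub_comp, Preadditive.comp_sub, Preadditive.comp_sub, h3, h5]
        simp
      have hE' : (q ≫ (e - F) ≫ p) ≫ (q ≫ (e - F) ≫ p) = q ≫ (e - F) ≫ p := by
        calc (q ≫ (e - F) ≫ p) ≫ (q ≫ (e - F) ≫ p) =
            q ≫ ((e - F) ≫ (p ≫ q)) ≫ (e - F) ≫ p := by simp only [Category.assoc]
          _ = q ≫ ((e - F) ≫ (e - F)) ≫ p := by rw [h11, hd1, Category.assoc]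
          _ = q ≫ (e - F) ≫ p := by rw [hd]
      obtain ⟨r', α', β', g1, g2⟩ := ih _ hE'
      obtain ⟨r, j₁, j₂, k₁, k₂, hr⟩ := HB x r'
      have z1 : α ≫ (e - F) = 0 := by rw [Preadditive.comp_sub, h6, h8, sub_self]
      have z2 : (e - F) ≫ β = 0 := by rw [Preadditive.sub_comp, h7, h9, sub_self]
      have t1 : (α' ≫ q ≫ (e - F)) ≫ ((e - F) ≫ p ≫ β') = 𝟙 r' := by
        calc (α' ≫ q ≫ (e - F)) ≫ ((e - F) ≫ p ≫ β') =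
            α' ≫ q ≫ ((e - F) ≫ (e - F)) ≫ p ≫ β' := by simp only [Category.assoc]
          _ = α' ≫ (q ≫ (e - F) ≫ p) ≫ β' := by rw [hd]; simp only [Category.assoc]
          _ = (α' ≫ β') ≫ (α' ≫ β') := by rw [← g2]; simp only [Category.assoc]
          _ = 𝟙 r' := by rw [g1, Category.comp_id]
      have t2 : ((e - F) ≫ p ≫ β') ≫ (α' ≫ q ≫ (e - F)) = e - F := by
        calc ((e - F) ≫ p ≫ β') ≫ (α' ≫ q ≫ (e - F)) =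
            (e - F) ≫ p ≫ (β' ≫ α') ≫ q ≫ (e - F) := by simp only [Category.assoc]
          _ = ((e - F) ≫ (p ≫ q)) ≫ ((e - F) ≫ (p ≫ q)) ≫ (e - F) := by
              rw [g2]; simp only [Category.assoc]
          _ = e - F := by rw [h11, hd1, hd, hd]
      refine ⟨r, k₁ ≫ α + k₂ ≫ α' ≫ q ≫ (e - F), β ≫ j₁ + ((e - F) ≫ p ≫ β') ≫ j₂, ?_, ?_⟩
      · have c1 : α ≫ (e - F) ≫ p ≫ β' = 0 := by rw [← Category.assoc, z1, Limits.zero_comp]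
        have c2 : (α' ≫ q ≫ (e - F)) ≫ β = 0 := by
          simp only [Category.assoc]
          rw [z2]; simp
        calc (k₁ ≫ α + k₂ ≫ α' ≫ q ≫ (e - F)) ≫ (β ≫ j₁ + ((e - F) ≫ p ≫ β') ≫ j₂)
            = k₁ ≫ (α ≫ β) ≫ j₁ + k₁ ≫ (α ≫ (e - F) ≫ p ≫ β') ≫ j₂ +
              (k₂ ≫ ((α' ≫ q ≫ (e - F)) ≫ β) ≫ j₁ +
              k₂ ≫ ((α' ≫ q ≫ (e - F)) ≫ ((e - F) ≫ p ≫ β')) ≫ j₂) := by
              simp only [Preadditive.add_comp, Preadditive.comp_add, Category.assoc]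
              abel
          _ = 𝟙 r := by
              rw [h1, c1, c2, t1, ← hr.hs]
              simp
      · have c1 : j₁ ≫ k₁ = 𝟙 x := hr.h11
        calc (β ≫ j₁ + ((e - F) ≫ p ≫ β') ≫ j₂) ≫ (k₁ ≫ α + k₂ ≫ α' ≫ q ≫ (e - F))
            = β ≫ (j₁ ≫ k₁) ≫ α + β ≫ (j₁ ≫ k₂) ≫ α' ≫ q ≫ (e - F) +
              (((e - F) ≫ p ≫ β') ≫ (j₂ ≫ k₁) ≫ α +
              ((e - F) ≫ p ≫ β') ≫ (j₂ ≫ k₂) ≫ α' ≫ q ≫ (e - F)) := by
              simp only [Preadditive.add_comp, Preadditive.comp_add, Category.assoc]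
              abel
          _ = β ≫ α + ((e - F) ≫ p ≫ β') ≫ (α' ≫ q ≫ (e - F)) := by
              rw [hr.h11, hr.h12, hr.h21, hr.h22]
              simp
          _ = e := by rw [h2, t2]; abel
    · have hinv' : Inv (i₁ ≫ (𝟙 z - e) ≫ o₁) := by
        have : i₁ ≫ (𝟙 z - e) ≫ o₁ = 𝟙 x - i₁ ≫ e ≫ o₁ := by
          rw [Preadditive.sub_comp, Preadditive.comp_sub, Category.id_comp, hb.h11]
        rw [this]; exact hinv
      have he' : (𝟙 z - e) ≫ (𝟙 z - e) = 𝟙 z - e := by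
        rw [Preadditive.sub_comp, Preadditive.comp_sub, Preadditive.comp_sub, he]
        simp
      obtain ⟨α, β, F, p, q, h1, h2, h3, h4, h5, h6, h7, h8, h9, h10, h11⟩ := peel hb he' hinv'
      have heF : e ≫ F = 0 := by
        rw [Preadditive.sub_comp, Category.id_comp] at h3
        exact sub_eq_self.1 h3
      have hd1 : e ≫ (𝟙 z - F) = e := by
        rw [Preadditive.comp_sub, heF, Category.comp_id, sub_zero]
      have hE' : (q ≫ e ≫ p) ≫ (q ≫ e ≫ p) = q ≫ e ≫ p := by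
        calc (q ≫ e ≫ p) ≫ (q ≫ e ≫ p) = q ≫ (e ≫ (p ≫ q)) ≫ e ≫ p := by
              simp only [Category.assoc]
          _ = q ≫ (e ≫ e) ≫ p := by rw [h11, hd1, Category.assoc]
          _ = q ≫ e ≫ p := by rw [he]
      obtain ⟨r', α', β', g1, g2⟩ := ih _ hE'
      refine ⟨r', α' ≫ q ≫ e, e ≫ p ≫ β', ?_, ?_⟩
      · calc (α' ≫ q ≫ e) ≫ e ≫ p ≫ β' = α' ≫ q ≫ (e ≫ e) ≫ p ≫ β' := by
              simp only [Category.assoc]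
          _ = α' ≫ (q ≫ e ≫ p) ≫ β' := by rw [he]; simp only [Category.assoc]
          _ = (α' ≫ β') ≫ (α' ≫ β') := by rw [← g2]; simp only [Category.assoc]
          _ = 𝟙 r' := by rw [g1, Category.comp_id]
      · calc (e ≫ p ≫ β') ≫ α' ≫ q ≫ e = e ≫ p ≫ (β' ≫ α') ≫ q ≫ e := by
              simp only [Category.assoc]
          _ = (e ≫ (p ≫ q)) ≫ (e ≫ (p ≫ q)) ≫ e := by rw [g2]; simp only [Category.assoc]
          _ = e := by rw [h11, hd1, he, he]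

theorem exch_aux {x y z : 𝒜} {i₁ : x ⟶ z} {i₂ : y ⟶ z} {o₁ : z ⟶ x} {o₂ : z ⟶ y}
    (hb : IsBi x y z i₁ i₂ o₁ o₂)
    (ih : ∀ (y₁ y₂ : 𝒜) (u : y₁ ⟶ y) (v : y₂ ⟶ y) (s : y ⟶ y₁) (t : y ⟶ y₂),
      s ≫ u + t ≫ v = 𝟙 y → ∃ e : y ⟶ y, e ≫ e = e ∧ (∃ s', e = s' ≫ u) ∧
        ∃ t', 𝟙 y - e = t' ≫ v)
    {y₁ y₂ : 𝒜} (u : y₁ ⟶ z) (v : y₂ ⟶ z) (s : z ⟶ y₁) (t : z ⟶ y₂)
    (h : s ≫ u + t ≫ v = 𝟙 z) (hinv : Inv (i₁ ≫ (s ≫ u) ≫ o₁)) :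
    ∃ e : z ⟶ z, e ≫ e = e ∧ (∃ s', e = s' ≫ u) ∧ ∃ t', 𝟙 z - e = t' ≫ v := by
  obtain ⟨b, hb1, hb2⟩ := hinv
  have hb2' : b ≫ i₁ ≫ s ≫ u ≫ o₁ = 𝟙 x := by simpa using hb2
  obtain ⟨G, hG⟩ : ∃ G : z ⟶ z, G = o₁ ≫ b ≫ i₁ ≫ s ≫ u := ⟨_, rfl⟩
  have hGo : G ≫ o₁ = o₁ := by
    rw [hG]
    simp only [Category.assoc]
    rw [hb2', Category.comp_id]
  have hGG : G ≫ G = G := by
    calc G ≫ G = (G ≫ o₁) ≫ b ≫ i₁ ≫ s ≫ u := by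
          conv_lhs => rw [hG]
          rw [hG]; simp only [Category.assoc]
      _ = G := by rw [hGo, ← hG]
  have hiG : i₂ ≫ G = 0 := by
    rw [hG, ← Category.assoc, hb.h21, Limits.zero_comp]
  obtain ⟨p, hp⟩ : ∃ p : z ⟶ y, p = (𝟙 z - G) ≫ o₂ := ⟨_, rfl⟩
  have hip : i₂ ≫ p = 𝟙 y := by
    rw [hp, Preadditive.sub_comp, Preadditive.comp_sub, Category.id_comp, hb.h22,
      ← Category.assoc, hiG, Limits.zero_comp, sub_zero]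
  have hoi : o₂ ≫ i₂ = 𝟙 z - o₁ ≫ i₁ := by
    rw [← hb.hs]; abel
  have hpi : p ≫ i₂ = 𝟙 z - G := by
    rw [hp, Category.assoc, hoi, Preadditive.sub_comp, Preadditive.comp_sub, Preadditive.comp_sub,
      ← Category.assoc G, hGo]
    simp
  have hGp : G ≫ p = 0 := by
    rw [hp, ← Category.assoc, Preadditive.comp_sub, hGG, Category.comp_id, sub_self,
      Limits.zero_comp]
  obtain ⟨e', he', ⟨s'', hs''⟩, ⟨t'', ht''⟩⟩ := ih y₁ y₂ (u ≫ p) (v ≫ p) (i₂ ≫ s) (i₂ ≫ t) (by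
    calc (i₂ ≫ s) ≫ u ≫ p + (i₂ ≫ t) ≫ v ≫ p = i₂ ≫ (s ≫ u + t ≫ v) ≫ p := by
          simp only [Preadditive.add_comp, Preadditive.comp_add, Category.assoc]
      _ = 𝟙 y := by rw [h, Category.id_comp, hip])
  have hf' : (𝟙 y - e') ≫ (𝟙 y - e') = 𝟙 y - e' := by
    rw [Preadditive.sub_comp, Preadditive.comp_sub, Preadditive.comp_sub, he']
    simp
  have hef : e' ≫ (𝟙 y - e') = 0 := by
    rw [Preadditive.comp_sub, he', Category.comp_id, sub_self]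
  have hfe : (𝟙 y - e') ≫ e' = 0 := by
    rw [Preadditive.sub_comp, he', Category.id_comp, sub_self]
  obtain ⟨f', hf'def⟩ : ∃ f' : y ⟶ y, f' = 𝟙 y - e' := ⟨_, rfl⟩
  rw [← hf'def] at hf' hef hfe ht''
  obtain ⟨θ, hθ⟩ : ∃ θ : z ⟶ z, θ = G + p ≫ e' ≫ s'' ≫ u + p ≫ f' ≫ t'' ≫ v := ⟨_, rfl⟩
  have hθp : θ ≫ p = p := by
    calc θ ≫ p = G ≫ p + p ≫ e' ≫ (s'' ≫ u ≫ p) + p ≫ f' ≫ (t'' ≫ v ≫ p) := by
          rw [hθ]; simp only [Preadditive.add_comp, Category.assoc]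
      _ = p := by
          rw [← hs'', ← ht'', hGp, he', hf', zero_add, ← Preadditive.comp_add, hf'def]
          simp
  have hGθ : G ≫ θ = G := by
    calc G ≫ θ = G ≫ G + (G ≫ p) ≫ e' ≫ s'' ≫ u + (G ≫ p) ≫ f' ≫ t'' ≫ v := by
          rw [hθ]; simp only [Preadditive.comp_add, Category.assoc]
      _ = G := by rw [hGp, hGG]; simp
  have hiθ : i₂ ≫ θ = e' ≫ s'' ≫ u + f' ≫ t'' ≫ v := by
    calc i₂ ≫ θ = i₂ ≫ G + (i₂ ≫ p) ≫ e' ≫ s'' ≫ u + (i₂ ≫ p) ≫ f' ≫ t'' ≫ v := by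
          rw [hθ]; simp only [Preadditive.comp_add, Category.assoc]
      _ = _ := by rw [hiG, hip]; simp
  obtain ⟨n, hn⟩ : ∃ n : z ⟶ z, n = θ - 𝟙 z := ⟨_, rfl⟩
  have hnp : n ≫ p = 0 := by rw [hn, Preadditive.sub_comp, hθp, Category.id_comp, sub_self]
  have hGn : G ≫ n = 0 := by rw [hn, Preadditive.comp_sub, hGθ, Category.comp_id, sub_self]
  have hnn : n ≫ n = 0 := by
    have h1 : n = n ≫ G := by
      have h2 : G + p ≫ i₂ = 𝟙 z := by rw [hpi]; abel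
      calc n = n ≫ (G + p ≫ i₂) := by rw [h2, Category.comp_id]
        _ = n ≫ G + (n ≫ p) ≫ i₂ := by rw [Preadditive.comp_add, Category.assoc]
        _ = n ≫ G := by rw [hnp, Limits.zero_comp, add_zero]
    calc n ≫ n = (n ≫ G) ≫ n := by rw [← h1]
      _ = n ≫ (G ≫ n) := by rw [Category.assoc]
      _ = 0 := by rw [hGn, Limits.comp_zero]
  have hθn : θ = 𝟙 z + n := by rw [hn]; abel
  have hinv1 : θ ≫ (𝟙 z - n) = 𝟙 z := by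
    rw [hθn, Preadditive.add_comp, Preadditive.comp_sub, Preadditive.comp_sub, hnn]
    simp
  obtain ⟨K, hK⟩ : ∃ K : z ⟶ z, K = G + p ≫ e' ≫ i₂ := ⟨_, rfl⟩
  have hKK : K ≫ K = K := by
    calc K ≫ K = G ≫ G + (G ≫ p) ≫ e' ≫ i₂ + (p ≫ e' ≫ (i₂ ≫ G) +
          p ≫ e' ≫ (i₂ ≫ p) ≫ e' ≫ i₂) := by
          rw [hK]; simp only [Preadditive.add_comp, Preadditive.comp_add, Category.assoc]
          abel
      _ = G + p ≫ (e' ≫ e') ≫ i₂ := by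
          rw [hGG, hGp, hiG, hip]; simp
      _ = K := by rw [he', ← hK]
  refine ⟨(𝟙 z - n) ≫ K ≫ θ, ?_, ?_, ?_⟩
  · calc ((𝟙 z - n) ≫ K ≫ θ) ≫ (𝟙 z - n) ≫ K ≫ θ =
        (𝟙 z - n) ≫ K ≫ (θ ≫ (𝟙 z - n)) ≫ K ≫ θ := by simp only [Category.assoc]
      _ = (𝟙 z - n) ≫ (K ≫ K) ≫ θ := by
          rw [hinv1, Category.id_comp]; simp only [Category.assoc]
      _ = (𝟙 z - n) ≫ K ≫ θ := by rw [hKK]
  · refine ⟨(𝟙 z - n) ≫ (o₁ ≫ b ≫ i₁ ≫ s + p ≫ e' ≫ s''), ?_⟩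
    have h1 : K ≫ θ = (o₁ ≫ b ≫ i₁ ≫ s + p ≫ e' ≫ s'') ≫ u := by
      calc K ≫ θ = G ≫ θ + p ≫ e' ≫ (i₂ ≫ θ) := by
            rw [hK]; simp only [Preadditive.add_comp, Category.assoc]
        _ = G + p ≫ ((e' ≫ e') ≫ s'' ≫ u + (e' ≫ f') ≫ t'' ≫ v) := by
            rw [hGθ, hiθ]; simp only [Preadditive.comp_add, Category.assoc]
        _ = G + p ≫ e' ≫ s'' ≫ u := by rw [he', hef]; simp
        _ = _ := by rw [hG]; simp only [Preadditive.add_comp, Category.assoc]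
    rw [h1, Category.assoc]
  · refine ⟨(𝟙 z - n) ≫ p ≫ f' ≫ t'', ?_⟩
    have hinv2 : (𝟙 z - n) ≫ θ = 𝟙 z := by
      rw [hθn, Preadditive.sub_comp, Preadditive.comp_add, Preadditive.comp_add, hnn]
      simp
    have h1 : (𝟙 z - K) ≫ θ = (p ≫ f' ≫ t'') ≫ v := by
      have h2 : 𝟙 z - K = p ≫ f' ≫ i₂ := by
        calc 𝟙 z - K = (𝟙 z - G) - p ≫ e' ≫ i₂ := by rw [hK]; abel
          _ = p ≫ f' ≫ i₂ := by
              rw [← hpi, hf'def]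
              simp only [Preadditive.sub_comp, Preadditive.comp_sub, Category.id_comp]
      calc (𝟙 z - K) ≫ θ = p ≫ f' ≫ (i₂ ≫ θ) := by rw [h2]; simp only [Category.assoc]
        _ = p ≫ ((f' ≫ e') ≫ s'' ≫ u + (f' ≫ f') ≫ t'' ≫ v) := by
            rw [hiθ]; simp only [Preadditive.comp_add, Category.assoc]
        _ = (p ≫ f' ≫ t'') ≫ v := by rw [hfe, hf']; simp
    calc 𝟙 z - (𝟙 z - n) ≫ K ≫ θ = (𝟙 z - n) ≫ (𝟙 z - K) ≫ θ := by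
          rw [Preadditive.sub_comp (𝟙 z) K, Preadditive.comp_sub, Category.id_comp, hinv2]
      _ = _ := by rw [h1]; simp only [Category.assoc]

/-- the exchange property -/
theorem exch : ∀ (n : ℕ) (z : 𝒜), Built n z →
    ∀ (y₁ y₂ : 𝒜) (u : y₁ ⟶ z) (v : y₂ ⟶ z) (s : z ⟶ y₁) (t : z ⟶ y₂),
      s ≫ u + t ≫ v = 𝟙 z → ∃ e : z ⟶ z, e ≫ e = e ∧ (∃ s', e = s' ≫ u) ∧
        ∃ t', 𝟙 z - e = t' ≫ v := by
  intro n z hz
  induction hz with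
  | zero z h =>
    intro y₁ y₂ u v s t _
    refine ⟨0, by simp, ⟨0, by simp⟩, ⟨0, ?_⟩⟩
    rw [h]; simp
  | succ n x y z hx i₁ i₂ o₁ o₂ hb _ ih =>
    intro y₁ y₂ u v s t h
    rcases hx (i₁ ≫ (s ≫ u) ≫ o₁) with hinv | hinv
    · exact exch_aux hb ih u v s t h hinv
    · have h1 : 𝟙 x - i₁ ≫ (s ≫ u) ≫ o₁ = i₁ ≫ (t ≫ v) ≫ o₁ := by
        have h2 : t ≫ v = 𝟙 z - s ≫ u := by rw [← h]; abel
        rw [h2, Preadditive.sub_comp, Preadditive.comp_sub, Category.id_comp, hb.h11]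
      rw [h1] at hinv
      obtain ⟨e, he, ⟨s', hs'⟩, ⟨t', ht'⟩⟩ := exch_aux hb ih v u t s (by rw [← h]; abel) hinv
      refine ⟨𝟙 z - e, ?_, ⟨t', ht'⟩, ⟨s', ?_⟩⟩
      · rw [Preadditive.sub_comp, Preadditive.comp_sub, Preadditive.comp_sub, he]
        simp
      · rw [← hs']; abel

end Pool.Agent.H494R3.EX
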