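import Mathlib

set_option autoImplicit false

/-!
Families of generic matrices, and their specialisation.
-/

namespace Pool.Agent.H494R3.EX

/-- variables -/
abbrev Vr (M : Type) : Type := M × M × ℕ × (ℕ ⊕ ℕ)
abbrev Pl (M : Type) : Type := MvPolynomial (Vr M) ℚ

/-- the field of rational functions -/
def Fl (M : Type) : Type := FractionRing (Pl M)

noncomputable instance (M : Type) : Field (Fl M) := inferInstanceAs (Field (FractionRing (Pl M)))
noncomputable instance (M : Type) : Algebra (Pl M) (Fl M) :=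
  inferInstanceAs (Algebra (Pl M) (FractionRing (Pl M)))
instance (M : Type) : IsFractionRing (Pl M) (Fl M) :=
  inferInstanceAs (IsFractionRing (Pl M) (FractionRing (Pl M)))

noncomputable def cF (M : Type) : ℚ →+* Fl M := (algebraMap (Pl M) (Fl M)).comp MvPolynomial.C

instance (M : Type) : CharZero (Fl M) := charZero_of_injective_ringHom (cF M).injective

noncomputable def xF {M : Type} (v : Vr M) : Fl M := algebraMap (Pl M) (Fl M) (MvPolynomial.X v)

variable {M : Type} [AddCommMonoid M]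

/-- morphisms -/
def Mor (m l : M) : Type := ∀ w : M →+ ℕ, Matrix (Fin (w l)) (Fin (w m)) (Fl M)

noncomputable instance (m l : M) : AddCommGroup (Mor m l) :=
  inferInstanceAs (AddCommGroup (∀ w : M →+ ℕ, Matrix (Fin (w l)) (Fin (w m)) (Fl M)))

noncomputable def cp {m l p : M} (b : Mor l p) (a : Mor m l) : Mor m p := fun w => b w * a w

noncomputable def one (m : M) : Mor m m := fun _ => 1

theorem add_ap {m l : M} (a b : Mor m l) (w : M →+ ℕ) : (a + b) w = a w + b w := rfl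
theorem neg_ap {m l : M} (a : Mor m l) (w : M →+ ℕ) : (-a) w = -(a w) := rfl
theorem zero_ap {m l : M} (w : M →+ ℕ) : (0 : Mor m l) w = 0 := rfl
theorem cp_ap {m l p : M} (b : Mor l p) (a : Mor m l) (w : M →+ ℕ) : cp b a w = b w * a w := rfl
theorem one_ap (m : M) (w : M →+ ℕ) : one m w = 1 := rfl

theorem cp_assoc {m l p r : M} (c : Mor p r) (b : Mor l p) (a : Mor m l) :
    cp (cp c b) a = cp c (cp b a) := by
  funext w; exact Matrix.mul_assoc _ _ _

theorem one_cp {m l : M} (a : Mor m l) : cp (one l) a = a := by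
  funext w; exact Matrix.one_mul _
theorem cp_one {m l : M} (a : Mor m l) : cp a (one m) = a := by
  funext w; exact Matrix.mul_one _
theorem cp_add {m l p : M} (b : Mor l p) (a a' : Mor m l) : cp b (a + a') = cp b a + cp b a' := by
  funext w; exact Matrix.mul_add _ _ _
theorem add_cp {m l p : M} (b b' : Mor l p) (a : Mor m l) : cp (b + b') a = cp b a + cp b' a := by
  funext w; exact Matrix.add_mul _ _ _
theorem cp_neg {m l p : M} (b : Mor l p) (a : Mor m l) : cp b (-a) = - cp b a := by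
  funext w; exact Matrix.mul_neg _ _
theorem neg_cp {m l p : M} (b : Mor l p) (a : Mor m l) : cp (-b) a = - cp b a := by
  funext w; exact Matrix.neg_mul _ _
theorem cp_zero {m l p : M} (b : Mor l p) : cp b (0 : Mor m l) = 0 := by
  funext w; exact Matrix.mul_zero _
theorem zero_cp {m l p : M} (a : Mor m l) : cp (0 : Mor l p) a = 0 := by
  funext w; exact Matrix.zero_mul _

/-- generic blocks -/
noncomputable def gx1 (m n l : M) : Mor m l :=
  fun _ => Matrix.of fun p q => xF (m, n, p.1, Sum.inl q.1)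
noncomputable def gx2 (m n l : M) : Mor n l :=
  fun _ => Matrix.of fun p q => xF (m, n, p.1, Sum.inr q.1)

/-- mutually inverse row and column pairs -/
structure IPair {m n l : M} (a : Mor m l) (b : Mor n l) (c : Mor l m) (d : Mor l n) : Prop where
  ca : cp c a = one m
  cb : cp c b = 0
  da : cp d a = 0
  db : cp d b = one n
  hs : cp a c + cp b d = one l

inductive D : ∀ {m l : M}, Mor m l → Prop
  | zero (m l : M) : D (0 : Mor m l)
  | one (m : M) : D (one m)
  | add {m l : M} {a b : Mor m l} : D a → D b → D (a + b)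
  | neg {m l : M} {a : Mor m l} : D a → D (-a)
  | comp {m l p : M} {b : Mor l p} {a : Mor m l} : D b → D a → D (cp b a)
  | x1 (m n l : M) (h : m + n = l) : D (gx1 m n l)
  | x2 (m n l : M) (h : m + n = l) : D (gx2 m n l)
  | y1 {m n l : M} (h : m + n = l) {a : Mor m l} {b : Mor n l} {c : Mor l m} {d : Mor l n}
      (hp : IPair a b c d) : D a → D b → D c
  | y2 {m n l : M} (h : m + n = l) {a : Mor m l} {b : Mor n l} {c : Mor l m} {d : Mor l n}
      (hp : IPair a b c d) : D a → D b → D d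

/-! ### matrices -/

theorem inv_rect {R : Type} [CommRing R] {ι κ : Type} [Fintype ι] [DecidableEq ι] [Fintype κ]
    [DecidableEq κ] (σ : ι ≃ κ) (A : Matrix ι κ R) (h : IsUnit (A.submatrix id σ).det) :
    ∃ B : Matrix κ ι R, A * B = 1 ∧ B * A = 1 := by
  set A' := A.submatrix id σ with hA'
  have h1 : A' * A'⁻¹ = 1 := Matrix.mul_nonsing_inv _ h
  have h2 : A'⁻¹ * A' = 1 := Matrix.nonsing_inv_mul _ h
  have hA : A = A'.submatrix id σ.symm := by
    rw [hA']; ext i j; simp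
  refine ⟨A'⁻¹.submatrix σ.symm id, ?_, ?_⟩
  · conv_lhs => rw [hA]
    rw [Matrix.submatrix_mul_equiv, h1]
    rfl
  · conv_lhs => rw [hA]
    have := Matrix.submatrix_mul_equiv (A'⁻¹) A' σ.symm (Equiv.refl ι) σ.symm
    rw [h2, Matrix.submatrix_one_equiv] at this
    exact this

def bl {R : Type} [Zero R] {p p' q q' : ℕ} (a : Matrix (Fin p) (Fin q) R)
    (b : Matrix (Fin p') (Fin q') R) : Matrix (Fin (p + p')) (Fin (q + q')) R :=
  (Matrix.fromBlocks a 0 0 b).submatrix finSumFinEquiv.symm finSumFinEquiv.symm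

theorem bl_mul {R : Type} [CommRing R] {p p' q q' r r' : ℕ} (a : Matrix (Fin p) (Fin q) R)
    (b : Matrix (Fin p') (Fin q') R) (c : Matrix (Fin q) (Fin r) R)
    (d : Matrix (Fin q') (Fin r') R) : bl a b * bl c d = bl (a * c) (b * d) := by
  unfold bl
  rw [Matrix.submatrix_mul_equiv, Matrix.fromBlocks_multiply]
  simp

theorem bl_add {R : Type} [CommRing R] {p p' q q' : ℕ} (a c : Matrix (Fin p) (Fin q) R)
    (b d : Matrix (Fin p') (Fin q') R) : bl a b + bl c d = bl (a + c) (b + d) := by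
  have h : Matrix.fromBlocks a 0 0 b + Matrix.fromBlocks c 0 0 d =
      Matrix.fromBlocks (a + c) 0 0 (b + d) := by
    rw [Matrix.fromBlocks_add, add_zero, add_zero]
  unfold bl
  rw [← h]
  rfl

theorem bl_neg {R : Type} [CommRing R] {p p' q q' : ℕ} (a : Matrix (Fin p) (Fin q) R)
    (b : Matrix (Fin p') (Fin q') R) : -bl a b = bl (-a) (-b) := by
  have h : -Matrix.fromBlocks a 0 0 b = Matrix.fromBlocks (-a) 0 0 (-b) := by
    rw [Matrix.fromBlocks_neg, neg_zero, neg_zero]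
  unfold bl
  rw [← h]
  rfl

theorem bl_zero {R : Type} [CommRing R] {p p' q q' : ℕ} :
    bl (0 : Matrix (Fin p) (Fin q) R) (0 : Matrix (Fin p') (Fin q') R) = 0 := by
  unfold bl
  rw [Matrix.fromBlocks_zero]
  rfl

theorem bl_one {R : Type} [CommRing R] {p p' : ℕ} :
    bl (1 : Matrix (Fin p) (Fin p) R) (1 : Matrix (Fin p') (Fin p') R) = 1 := by
  unfold bl
  rw [Matrix.fromBlocks_one, Matrix.submatrix_one_equiv]

/-! ### specialisation -/

section
variable (w₁ w₂ : M →+ ℕ)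

noncomputable def th : Vr M → Fl M
  | (m, n, p, Sum.inl q) => if p < w₁ (m + n) then (if q < w₁ m then xF (m, n, p, Sum.inl q) else 0)
      else (if q < w₁ m then 0 else xF (m, n, p - w₁ (m + n), Sum.inl (q - w₁ m)))
  | (m, n, p, Sum.inr q) => if p < w₁ (m + n) then (if q < w₁ n then xF (m, n, p, Sum.inr q) else 0)
      else (if q < w₁ n then 0 else xF (m, n, p - w₁ (m + n), Sum.inr (q - w₁ n)))

noncomputable def thh : Pl M →+* Fl M := MvPolynomial.eval₂Hom (cF M) (th w₁)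

theorem thh_X (v : Vr M) : thh w₁ (MvPolynomial.X v) = th w₁ v := by
  unfold thh
  simp

noncomputable def St : Submonoid (Pl M) where
  carrier := {s | thh w₁ s ≠ 0}
  mul_mem' := by
    intro a b ha hb
    show thh w₁ (a * b) ≠ 0
    rw [map_mul]
    exact mul_ne_zero ha hb
  one_mem' := by
    show thh w₁ 1 ≠ 0
    rw [map_one]
    exact one_ne_zero

/-- the local ring of the specialisation -/
def Lo : Type := Localization (St w₁)

noncomputable instance : CommRing (Lo w₁) := inferInstanceAs (CommRing (Localization (St w₁)))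
noncomputable instance : Algebra (Pl M) (Lo w₁) :=
  inferInstanceAs (Algebra (Pl M) (Localization (St w₁)))
instance : IsLocalization (St w₁) (Lo w₁) :=
  inferInstanceAs (IsLocalization (St w₁) (Localization (St w₁)))

noncomputable def jj : Lo w₁ →+* Fl M :=
  IsLocalization.lift (M := St w₁) (g := algebraMap (Pl M) (Fl M)) (by
    rintro ⟨s, hs⟩
    have hs' : thh w₁ s ≠ 0 := hs
    rw [isUnit_iff_ne_zero]
    intro h
    apply hs'
    have : s = 0 := by
      apply IsFractionRing.injective (Pl M) (Fl M)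
      rw [map_zero]; exact h
    rw [this, map_zero])

noncomputable def tb : Lo w₁ →+* Fl M :=
  IsLocalization.lift (M := St w₁) (g := thh w₁) (by
    rintro ⟨s, hs⟩
    exact isUnit_iff_ne_zero.2 hs)

theorem jj_al (x : Pl M) : jj w₁ (algebraMap (Pl M) (Lo w₁) x) = algebraMap (Pl M) (Fl M) x :=
  IsLocalization.lift_eq _ _

theorem tb_al (x : Pl M) : tb w₁ (algebraMap (Pl M) (Lo w₁) x) = thh w₁ x :=
  IsLocalization.lift_eq _ _

theorem tb_unit {x : Lo w₁} (h : tb w₁ x ≠ 0) : IsUnit x := by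
  obtain ⟨⟨a, s⟩, hx⟩ := IsLocalization.surj (St w₁) x
  have h1 : tb w₁ x * tb w₁ (algebraMap (Pl M) (Lo w₁) s.1) = tb w₁ (algebraMap (Pl M) (Lo w₁) a) := by
    rw [← map_mul, hx]
  rw [tb_al, tb_al] at h1
  have ha : a ∈ St w₁ := by
    show thh w₁ a ≠ 0
    rw [← h1]
    exact mul_ne_zero h s.2
  have hu : IsUnit (algebraMap (Pl M) (Lo w₁) a) := IsLocalization.map_units (Lo w₁) ⟨a, ha⟩
  rw [← hx] at hu
  exact isUnit_of_mul_isUnit_left hu

/-- evaluation at the sum -/
def ev {m l : M} (a : Mor m l) : Matrix (Fin (w₁ l + w₂ l)) (Fin (w₁ m + w₂ m)) (Fl M) :=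
  a (w₁ + w₂)

theorem ev_cp {m l p : M} (b : Mor l p) (a : Mor m l) : ev w₁ w₂ (cp b a) =
    ev w₁ w₂ b * ev w₁ w₂ a := rfl
theorem ev_add {m l : M} (a b : Mor m l) : ev w₁ w₂ (a + b) = ev w₁ w₂ a + ev w₁ w₂ b := rfl
theorem ev_neg {m l : M} (a : Mor m l) : ev w₁ w₂ (-a) = -ev w₁ w₂ a := rfl
theorem ev_one (m : M) : ev w₁ w₂ (one m) = 1 := rfl
theorem ev_zero (m l : M) : ev w₁ w₂ (0 : Mor m l) = 0 := rfl

def Spec {m l : M} (a : Mor m l) : Prop :=
  ∃ A : Matrix (Fin (w₁ l + w₂ l)) (Fin (w₁ m + w₂ m)) (Lo w₁),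
    A.map (jj w₁) = ev w₁ w₂ a ∧ A.map (tb w₁) = bl (a w₁) (a w₂)

theorem spec_pair {m n l : M} (h : m + n = l) {a : Mor m l} {b : Mor n l} {c : Mor l m}
    {d : Mor l n} (hp : IPair a b c d) (ha : Spec w₁ w₂ a) (hb : Spec w₁ w₂ b) :
    Spec w₁ w₂ c ∧ Spec w₁ w₂ d := by
  obtain ⟨A, hA1, hA2⟩ := ha
  obtain ⟨B, hB1, hB2⟩ := hb
  have hcard : w₁ l + w₂ l = (w₁ m + w₂ m) + (w₁ n + w₂ n) := by
    rw [← h, map_add, map_add]; omega
  let σ : Fin (w₁ l + w₂ l) ≃ Fin (w₁ m + w₂ m) ⊕ Fin (w₁ n + w₂ n) :=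
    (finCongr hcard).trans finSumFinEquiv.symm
  let P := Matrix.fromCols A B
  have hPt : P.map (tb w₁) = Matrix.fromCols (bl (a w₁) (a w₂)) (bl (b w₁) (b w₂)) := by
    rw [← hA2, ← hB2]
    ext i (j | j) <;> rfl
  have hPj : P.map (jj w₁) = Matrix.fromCols (ev w₁ w₂ a) (ev w₁ w₂ b) := by
    rw [← hA1, ← hB1]
    ext i (j | j) <;> rfl
  have hs : ∀ w, a w * c w + b w * d w = 1 := fun w => congrFun hp.hs w
  have hca : ∀ w, c w * a w = 1 := fun w => congrFun hp.ca w
  have hcb : ∀ w, c w * b w = 0 := fun w => congrFun hp.cb w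
  have hda : ∀ w, d w * a w = 0 := fun w => congrFun hp.da w
  have hdb : ∀ w, d w * b w = 1 := fun w => congrFun hp.db w
  have hinv : P.map (tb w₁) * Matrix.fromRows (bl (c w₁) (c w₂)) (bl (d w₁) (d w₂)) = 1 := by
    rw [hPt, Matrix.fromCols_mul_fromRows, bl_mul, bl_mul, bl_add, hs, hs, bl_one]
  have hdet : IsUnit (P.submatrix id σ).det := by
    apply tb_unit
    rw [RingHom.map_det]
    have h1 : (tb w₁).mapMatrix (P.submatrix id σ) = (P.map (tb w₁)).submatrix id σ := rfl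
    rw [h1]
    have h2 : (P.map (tb w₁)).submatrix id σ *
        (Matrix.fromRows (bl (c w₁) (c w₂)) (bl (d w₁) (d w₂))).submatrix σ id = 1 := by
      rw [Matrix.submatrix_mul_equiv, hinv]
      rfl
    have h3 := congrArg Matrix.det h2
    rw [Matrix.det_mul, Matrix.det_one] at h3
    exact left_ne_zero_of_mul_eq_one h3
  obtain ⟨Q, hQ1, hQ2⟩ := inv_rect σ P hdet
  have hQj : Q.map (jj w₁) = Matrix.fromRows (ev w₁ w₂ c) (ev w₁ w₂ d) := by
    have e1 : Q.map (jj w₁) * P.map (jj w₁) = 1 := by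
      rw [← Matrix.map_mul, hQ2, Matrix.map_one _ (map_zero _) (map_one _)]
    have e2 : P.map (jj w₁) * Matrix.fromRows (ev w₁ w₂ c) (ev w₁ w₂ d) = 1 := by
      rw [hPj, Matrix.fromCols_mul_fromRows]
      exact hs (w₁ + w₂)
    calc Q.map (jj w₁) = Q.map (jj w₁) * (P.map (jj w₁) *
          Matrix.fromRows (ev w₁ w₂ c) (ev w₁ w₂ d)) := by rw [e2, Matrix.mul_one]
      _ = _ := by rw [← Matrix.mul_assoc, e1, Matrix.one_mul]
  have hQt : Q.map (tb w₁) = Matrix.fromRows (bl (c w₁) (c w₂)) (bl (d w₁) (d w₂)) := by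
    have e1 : Q.map (tb w₁) * P.map (tb w₁) = 1 := by
      rw [← Matrix.map_mul, hQ2, Matrix.map_one _ (map_zero _) (map_one _)]
    calc Q.map (tb w₁) = Q.map (tb w₁) * (P.map (tb w₁) *
          Matrix.fromRows (bl (c w₁) (c w₂)) (bl (d w₁) (d w₂))) := by rw [hinv, Matrix.mul_one]
      _ = _ := by rw [← Matrix.mul_assoc, e1, Matrix.one_mul]
  refine ⟨⟨Q.submatrix Sum.inl id, ?_, ?_⟩, ⟨Q.submatrix Sum.inr id, ?_, ?_⟩⟩
  · have : (Q.submatrix Sum.inl id).map (jj w₁) = (Q.map (jj w₁)).submatrix Sum.inl id := rfl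
    rw [this, hQj]; rfl
  · have : (Q.submatrix Sum.inl id).map (tb w₁) = (Q.map (tb w₁)).submatrix Sum.inl id := rfl
    rw [this, hQt]; rfl
  · have : (Q.submatrix Sum.inr id).map (jj w₁) = (Q.map (jj w₁)).submatrix Sum.inr id := rfl
    rw [this, hQj]; rfl
  · have : (Q.submatrix Sum.inr id).map (tb w₁) = (Q.map (tb w₁)).submatrix Sum.inr id := rfl
    rw [this, hQt]; rfl

theorem bl_apply_ll {p p' q q' : ℕ} (a : Matrix (Fin p) (Fin q) (Fl M))
    (b : Matrix (Fin p') (Fin q') (Fl M)) (i : Fin (p + p')) (j : Fin (q + q')) :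
    bl a b i j = if hi : i.1 < p then (if hj : j.1 < q then a ⟨i.1, hi⟩ ⟨j.1, hj⟩ else 0)
      else (if hj : j.1 < q then 0 else b ⟨i.1 - p, by omega⟩ ⟨j.1 - q, by omega⟩) := by
  unfold bl
  refine Fin.addCases (fun i => ?_) (fun i => ?_) i
  · refine Fin.addCases (fun j => ?_) (fun j => ?_) j
    · simp
    · simp
  · refine Fin.addCases (fun j => ?_) (fun j => ?_) j
    · simp
    · simp

theorem spec_D {m l : M} {a : Mor m l} (h : D a) : Spec w₁ w₂ a := by
  induction h with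
  | zero m l =>
    refine ⟨0, ?_, ?_⟩
    · rw [ev_zero]; ext i j; exact map_zero (jj w₁)
    · rw [zero_ap, zero_ap, bl_zero]; ext i j; exact map_zero (tb w₁)
  | one m =>
    refine ⟨1, ?_, ?_⟩
    · rw [ev_one, Matrix.map_one _ (map_zero _) (map_one _)]
    · rw [one_ap, one_ap, bl_one, Matrix.map_one _ (map_zero _) (map_one _)]
  | add _ _ iha ihb =>
    obtain ⟨A, hA1, hA2⟩ := iha
    obtain ⟨B, hB1, hB2⟩ := ihb
    refine ⟨A + B, ?_, ?_⟩
    · rw [Matrix.map_add _ (map_add _), hA1, hB1, ev_add]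
    · rw [Matrix.map_add _ (map_add _), hA2, hB2, bl_add]; rfl
  | neg _ iha =>
    obtain ⟨A, hA1, hA2⟩ := iha
    refine ⟨-A, ?_, ?_⟩
    · rw [ev_neg, ← hA1]; ext i j; exact map_neg (jj w₁) _
    · rw [neg_ap, neg_ap, ← bl_neg, ← hA2]; ext i j; exact map_neg (tb w₁) _
  | comp _ _ ihb iha =>
    obtain ⟨A, hA1, hA2⟩ := iha
    obtain ⟨B, hB1, hB2⟩ := ihb
    refine ⟨B * A, ?_, ?_⟩
    · rw [Matrix.map_mul, hA1, hB1, ev_cp]
    · rw [Matrix.map_mul, hA2, hB2, bl_mul]; rfl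
  | x1 m n l h =>
    refine ⟨Matrix.of fun p q => algebraMap (Pl M) (Lo w₁)
      (MvPolynomial.X (m, n, p.1, Sum.inl q.1)), ?_, ?_⟩
    · ext i j
      exact jj_al w₁ _
    · ext i j
      rw [bl_apply_ll, Matrix.map_apply, Matrix.of_apply, tb_al, thh_X]
      subst h
      unfold th gx1
      simp only [Matrix.of_apply]
      split_ifs <;> rfl
  | x2 m n l h =>
    refine ⟨Matrix.of fun p q => algebraMap (Pl M) (Lo w₁)
      (MvPolynomial.X (m, n, p.1, Sum.inr q.1)), ?_, ?_⟩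
    · ext i j
      exact jj_al w₁ _
    · ext i j
      rw [bl_apply_ll, Matrix.map_apply, Matrix.of_apply, tb_al, thh_X]
      subst h
      unfold th gx2
      simp only [Matrix.of_apply]
      split_ifs <;> rfl
  | y1 h hp _ _ iha ihb => exact (spec_pair w₁ w₂ h hp iha ihb).1
  | y2 h hp _ _ iha ihb => exact (spec_pair w₁ w₂ h hp iha ihb).2

theorem unit_add {m : M} {a : Mor m m} (h : D a) (h1 : IsUnit (a w₁)) (h2 : IsUnit (a w₂)) :
    IsUnit (a (w₁ + w₂)) := by
  obtain ⟨A, hA1, hA2⟩ := spec_D w₁ w₂ h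
  have hb : IsUnit (bl (a w₁) (a w₂)) := by
    obtain ⟨u, hu⟩ := h1
    obtain ⟨v, hv⟩ := h2
    rw [← hu, ← hv]
    refine ⟨⟨bl u.1 v.1, bl u.2 v.2, ?_, ?_⟩, rfl⟩
    · rw [bl_mul]
      have e1 : (u.1 * u.2 : Matrix _ _ _) = 1 := u.3
      have e2 : (v.1 * v.2 : Matrix _ _ _) = 1 := v.3
      rw [e1, e2, bl_one]
    · rw [bl_mul]
      have e1 : (u.2 * u.1 : Matrix _ _ _) = 1 := u.4
      have e2 : (v.2 * v.1 : Matrix _ _ _) = 1 := v.4
      rw [e1, e2, bl_one]
  have hA : IsUnit A := by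
    rw [Matrix.isUnit_iff_isUnit_det]
    apply tb_unit
    rw [RingHom.map_det]
    have h3 : (tb w₁).mapMatrix A = A.map (tb w₁) := rfl
    rw [h3, hA2]
    rw [Matrix.isUnit_iff_isUnit_det] at hb
    exact hb.ne_zero
  have hj : IsUnit (ev w₁ w₂ a) := by
    rw [← hA1]
    exact hA.map (jj w₁).mapMatrix
  exact hj

end

end Pool.Agent.H494R3.EX
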