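import Pool.Agent.H494R3.EX.A4

set_option autoImplicit false

/-!
Functoriality along embeddings.
-/

namespace Pool.Agent.H494R3.EX

open CategoryTheory
open Pool.Agent.H494R3.VR (Eqv Idem VV blk)

/-! ### the field -/

section
variable {M M' M'' : Type}

def vrm (f : M → M') : Vr M → Vr M' := fun v => (f v.1, f v.2.1, v.2.2.1, v.2.2.2)

theorem vrm_inj {f : M → M'} (hf : Function.Injective f) : Function.Injective (vrm f) := by
  rintro ⟨a, b, c, d⟩ ⟨a', b', c', d'⟩ h
  unfold vrm at h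
  simp only [Prod.mk.injEq] at h
  obtain ⟨h1, h2, h3, h4⟩ := h
  rw [hf h1, hf h2, h3, h4]

noncomputable def Fmap (f : M → M') (hf : Function.Injective f) : Fl M →+* Fl M' :=
  IsFractionRing.lift (A := Pl M) (K := Fl M)
    (g := (algebraMap (Pl M') (Fl M')).comp (MvPolynomial.rename (R := ℚ) (vrm f)).toRingHom) (by
      intro x y h
      exact MvPolynomial.rename_injective _ (vrm_inj hf)
        (IsFractionRing.injective (Pl M') (Fl M') h))

theorem Fmap_x (f : M → M') (hf : Function.Injective f) (v : Vr M) :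
    Fmap f hf (xF v) = xF (vrm f v) := by
  unfold Fmap xF
  rw [IsFractionRing.lift_algebraMap]
  show algebraMap (Pl M') (Fl M') (MvPolynomial.rename (vrm f) (MvPolynomial.X v)) = _
  rw [MvPolynomial.rename_X]

theorem Fl_ext {F : Type} [Field F] {g h : Fl M →+* F} (hx : ∀ v, g (xF v) = h (xF v)) :
    g = h := by
  apply IsLocalization.ringHom_ext (nonZeroDivisors (Pl M))
  apply MvPolynomial.ringHom_ext
  · intro r
    have : (g.comp (cF M)) = (h.comp (cF M)) := Subsingleton.elim _ _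
    exact congrFun (congrArg (fun k : ℚ →+* F => (k : ℚ → F)) this) r
  · intro v
    exact hx v

theorem Fmap_id (h : Function.Injective (id : M → M)) (x : Fl M) : Fmap id h x = x := by
  have : Fmap id h = RingHom.id (Fl M) := Fl_ext (fun v => by rw [Fmap_x]; rfl)
  rw [this]; rfl

theorem Fmap_comp (f : M → M') (hf : Function.Injective f) (g : M' → M'')
    (hg : Function.Injective g) (hgf : Function.Injective (g ∘ f)) (x : Fl M) :
    Fmap (g ∘ f) hgf x = Fmap g hg (Fmap f hf x) := by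
  have : Fmap (g ∘ f) hgf = (Fmap g hg).comp (Fmap f hf) := Fl_ext (fun v => by
    rw [Fmap_x, RingHom.comp_apply, Fmap_x, Fmap_x]; rfl)
  rw [this]; rfl

end

/-! ### morphisms -/

section
variable {M M' M'' : Type} [AddCommMonoid M] [AddCommMonoid M'] [AddCommMonoid M'']

noncomputable def Cmap (f : M →+ M') (hf : Function.Injective f) {m l : M} {m' l' : M'}
    (hm : f m = m') (hl : f l = l') (a : Mor m l) : Mor m' l' :=
  fun w => ((a (w.comp f)).map (Fmap f hf)).submatrix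
    (finCongr (by rw [← hl]; rfl)) (finCongr (by rw [← hm]; rfl))

theorem Cmap_rfl (f : M →+ M') (hf : Function.Injective f) {m l : M} (a : Mor m l)
    (w : M' →+ ℕ) : Cmap f hf rfl rfl a w = (a (w.comp f)).map (Fmap f hf) := rfl

variable (f : M →+ M') (hf : Function.Injective f)

theorem Cmap_zero {m l : M} {m' l' : M'} (hm : f m = m') (hl : f l = l') :
    Cmap f hf hm hl (0 : Mor m l) = 0 := by
  subst hm hl
  funext w
  ext i j
  exact map_zero (Fmap f hf)

theorem Cmap_add {m l : M} {m' l' : M'} (hm : f m = m') (hl : f l = l') (a b : Mor m l) :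
    Cmap f hf hm hl (a + b) = Cmap f hf hm hl a + Cmap f hf hm hl b := by
  subst hm hl
  funext w
  ext i j
  exact map_add (Fmap f hf) _ _

theorem Cmap_neg {m l : M} {m' l' : M'} (hm : f m = m') (hl : f l = l') (a : Mor m l) :
    Cmap f hf hm hl (-a) = -Cmap f hf hm hl a := by
  subst hm hl
  funext w
  ext i j
  exact map_neg (Fmap f hf) _

theorem Cmap_one {m : M} {m' : M'} (hm : f m = m') :
    Cmap f hf hm hm (one m) = one m' := by
  subst hm
  funext w
  rw [Cmap_rfl, one_ap, one_ap, Matrix.map_one _ (map_zero _) (map_one _)]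

theorem Cmap_cp {m l p : M} {m' l' p' : M'} (hm : f m = m') (hl : f l = l') (hp : f p = p')
    (b : Mor l p) (a : Mor m l) :
    Cmap f hf hm hp (cp b a) = cp (Cmap f hf hl hp b) (Cmap f hf hm hl a) := by
  subst hm hl hp
  funext w
  rw [Cmap_rfl, cp_ap, cp_ap, Matrix.map_mul]
  rfl

theorem Cmap_x1 (m n l : M) : Cmap f hf rfl rfl (gx1 m n l) = gx1 (f m) (f n) (f l) := by
  funext w
  ext i j
  exact Fmap_x f hf _

theorem Cmap_x2 (m n l : M) : Cmap f hf rfl rfl (gx2 m n l) = gx2 (f m) (f n) (f l) := by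
  funext w
  ext i j
  exact Fmap_x f hf _

theorem Cmap_IPair {m n l : M} {a : Mor m l} {b : Mor n l} {c : Mor l m} {d : Mor l n}
    (hp : IPair a b c d) : IPair (Cmap f hf rfl rfl a) (Cmap f hf rfl rfl b)
      (Cmap f hf rfl rfl c) (Cmap f hf rfl rfl d) := by
  refine ⟨?_, ?_, ?_, ?_, ?_⟩
  · rw [← Cmap_cp, hp.ca, Cmap_one]
  · rw [← Cmap_cp, hp.cb, Cmap_zero]
  · rw [← Cmap_cp, hp.da, Cmap_zero]
  · rw [← Cmap_cp, hp.db, Cmap_one]
  · rw [← Cmap_cp, ← Cmap_cp, ← Cmap_add, hp.hs, Cmap_one]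

theorem Cmap_D' {m l : M} {a : Mor m l} (h : D a) : D (Cmap f hf rfl rfl a) := by
  induction h with
  | zero m l => rw [Cmap_zero]; exact D.zero _ _
  | one m => rw [Cmap_one]; exact D.one _
  | add _ _ iha ihb => rw [Cmap_add]; exact D.add iha ihb
  | neg _ iha => rw [Cmap_neg]; exact D.neg iha
  | comp _ _ ihb iha => rw [Cmap_cp f hf rfl rfl rfl]; exact D.comp ihb iha
  | x1 m n l h => rw [Cmap_x1]; exact D.x1 _ _ _ (by rw [← map_add, h])
  | x2 m n l h => rw [Cmap_x2]; exact D.x2 _ _ _ (by rw [← map_add, h])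
  | y1 h hp _ _ iha ihb =>
    exact D.y1 (by rw [← map_add, h]) (Cmap_IPair f hf hp) iha ihb
  | y2 h hp _ _ iha ihb =>
    exact D.y2 (by rw [← map_add, h]) (Cmap_IPair f hf hp) iha ihb

theorem Cmap_D {m l : M} {m' l' : M'} (hm : f m = m') (hl : f l = l') {a : Mor m l} (h : D a) :
    D (Cmap f hf hm hl a) := by
  subst hm hl
  exact Cmap_D' f hf h

/-- the ring homomorphism -/
noncomputable def rmp {u : M} {u' : M'} (h : f u = u') : Rg M u →ₙ+* Rg M' u' where
  toFun a := (⟨Cmap f hf h h a.1, Cmap_D f hf h h a.2⟩ : DS u' u')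
  map_zero' := Subtype.ext (Cmap_zero f hf h h)
  map_add' a b := Subtype.ext (Cmap_add f hf h h a.1 b.1)
  map_mul' a b := Subtype.ext (Cmap_cp f hf h h h a.1 b.1)

theorem rmp_id {u : M} (hf : Function.Injective (AddMonoidHom.id M))
    (h : AddMonoidHom.id M u = u) (a : Rg M u) : rmp (AddMonoidHom.id M) hf h a = a := by
  apply Subtype.ext
  funext w
  ext i j
  exact Fmap_id hf _

theorem rmp_comp (g : M' →+ M'') (hg : Function.Injective g)
    (hgf : Function.Injective (g.comp f)) {u : M} {u' : M'} {u'' : M''} (h : f u = u')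
    (h' : g u' = u'') (h'' : (g.comp f) u = u'') (a : Rg M u) :
    rmp (g.comp f) hgf h'' a = rmp g hg h' (rmp f hf h a) := by
  subst h
  subst h'
  apply Subtype.ext
  funext w
  ext i j
  exact Fmap_comp f hf g hg hgf _

/-- functor on morphisms -/
noncomputable def cm {x y : Ob M} : (x ⟶ y) →+ (Ob.mk (f x.m) ⟶ Ob.mk (f y.m)) where
  toFun a := ⟨Cmap f hf rfl rfl a.1, Cmap_D f hf rfl rfl a.2⟩
  map_zero' := Subtype.ext (Cmap_zero f hf rfl rfl)
  map_add' a b := Subtype.ext (Cmap_add f hf rfl rfl a.1 b.1)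

theorem cm_comp {x y z : Ob M} (a : x ⟶ y) (b : y ⟶ z) :
    cm f hf (a ≫ b) = cm f hf a ≫ cm f hf b := Subtype.ext (Cmap_cp f hf rfl rfl rfl b.1 a.1)

theorem cm_id (x : Ob M) : cm f hf (𝟙 x) = 𝟙 (Ob.mk (f x.m)) := Subtype.ext (Cmap_one f hf rfl)

theorem Pres.map {u : M} {u' : M'} (h : f u = u') {ι : Type} [Fintype ι]
    {E : Matrix ι ι (Rg M u)} {r : M} (hE : Pres E (Ob.mk r)) :
    Pres (E.map (rmp f hf h)) (Ob.mk (f r)) := by
  subst h
  obtain ⟨x, y, rfl, h2⟩ := hE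
  refine ⟨fun i => cm f hf (x i), fun i => cm f hf (y i), ?_, ?_⟩
  · ext i j
    exact cm_comp f hf (y j) (x i)
  · have h3 := congrArg (cm f hf) h2
    rw [map_sum, cm_id] at h3
    rw [← h3]
    exact Finset.sum_congr rfl (fun i _ => (cm_comp f hf (x i) (y i)).symm)

end

/-! ### the natural map -/

section
variable {M : Type} [AddCommMonoid M] {u : M}

theorem pres_ex (hu : ∀ x : M, ∃ (y : M) (n : ℕ), x + y = n • u) (r : M) :
    ∃ E : Idem (Rg M u), Pres E.mat (Ob.mk r) := by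
  obtain ⟨y, n, hy⟩ := hu r
  have hn := nsum_ex u n
  rw [← hy] at hn
  obtain ⟨i, o, h⟩ := hn
  obtain ⟨i₁, i₂, o₁, o₂, hb⟩ := gbi r y
  have h1 := h.pres i₁ o₁ hb.h11
  exact ⟨⟨n, _, h1.idem⟩, h1⟩

theorem pres_cl {N : ℕ} (e : M ≃+ (Fin N → ℕ)) (E : Idem (Rg M u)) :
    ∃ r : M, Pres E.mat (Ob.mk r) := by
  obtain ⟨i, o, h⟩ := nsum_ex u E.size
  obtain ⟨r, hr⟩ := h.pres_of_idem (split_idem HBOb _ _ (built_all e _ _ rfl)) E.mat E.idem
  exact ⟨r.m, hr⟩

theorem pres_blk {E F : Idem (Rg M u)} {r s : M} (hE : Pres E.mat (Ob.mk r))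
    (hF : Pres F.mat (Ob.mk s)) : Pres (E.add F).mat (Ob.mk (r + s)) := by
  obtain ⟨i₁, i₂, o₁, o₂, hb⟩ := gbi r s
  exact (hE.blocks hF hb).sub finSumFinEquiv.symm

theorem pres_zero : Pres (Idem.zero (Rg M u)).mat (Ob.mk (0 : M)) :=
  Pres.empty (Subtype.ext mor_zero_eq)

noncomputable def etaF (hu : ∀ x : M, ∃ (y : M) (n : ℕ), x + y = n • u) (r : M) :
    VV (Rg M u) := VV.mk (pres_ex hu r).choose

theorem etaF_eq (hu : ∀ x : M, ∃ (y : M) (n : ℕ), x + y = n • u) {r : M} {E : Idem (Rg M u)}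
    (h : Pres E.mat (Ob.mk r)) : etaF hu r = VV.mk E :=
  VV.mk_eq.2 ((pres_ex hu r).choose_spec.eqv h)

noncomputable def eta (hu : ∀ x : M, ∃ (y : M) (n : ℕ), x + y = n • u) : M →+ VV (Rg M u) where
  toFun := etaF hu
  map_zero' := by
    rw [etaF_eq hu pres_zero]; rfl
  map_add' r s := by
    have h1 := (pres_ex hu r).choose_spec
    have h2 := (pres_ex hu s).choose_spec
    rw [etaF_eq hu (pres_blk h1 h2), etaF_eq hu h1, etaF_eq hu h2, VV.add_mk]

theorem eta_eq (hu : ∀ x : M, ∃ (y : M) (n : ℕ), x + y = n • u) {r : M} {E : Idem (Rg M u)}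
    (h : Pres E.mat (Ob.mk r)) : eta hu r = VV.mk E := etaF_eq hu h

theorem eta_surj (hu : ∀ x : M, ∃ (y : M) (n : ℕ), x + y = n • u)
    {N : ℕ} (e : M ≃+ (Fin N → ℕ)) : Function.Surjective (eta hu) := by
  rintro ⟨E⟩
  obtain ⟨r, hr⟩ := pres_cl e E
  exact ⟨r, eta_eq hu hr⟩

theorem eta_inj (hu : ∀ x : M, ∃ (y : M) (n : ℕ), x + y = n • u)
    {N : ℕ} (e : M ≃+ (Fin N → ℕ)) : Function.Injective (eta hu) := by
  intro r s h
  have h1 := (pres_ex hu r).choose_spec
  have h2 := (pres_ex hu s).choose_spec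
  rw [eta_eq hu h1, eta_eq hu h2, VV.mk_eq] at h
  apply e.injective
  ext i
  exact pres_unique h1 h2 h (wc e i)

theorem eta_nat {M' : Type} [AddCommMonoid M'] (f : M →+ M') (hf : Function.Injective f)
    {u' : M'} (h : f u = u') (hu : ∀ x : M, ∃ (y : M) (n : ℕ), x + y = n • u)
    (hu' : ∀ x : M', ∃ (y : M') (n : ℕ), x + y = n • u') (r : M) :
    VV.map (rmp f hf h) (eta hu r) = eta hu' (f r) := by
  have h1 := (pres_ex hu r).choose_spec
  rw [eta_eq hu h1]
  have h2 : Pres ((pres_ex hu r).choose.map (rmp f hf h)).mat (Ob.mk (f r)) := h1.map f hf h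
  rw [eta_eq hu' h2]
  rfl

end

end Pool.Agent.H494R3.EX
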