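import Mathlib
import Pool.Agent.H494R3.VR.Defs

set_option autoImplicit false

/-!
The category of simplicial monoids with order-unit and normalized embeddings, the category of
exchange rings, and the functor `V`.
-/

namespace Pool.Agent.H494R3.EX

open CategoryTheory
open Pool.Agent.H494R3.VR (VV)

/-- A commutative monoid. -/
structure CMon where
  carrier : Type
  str : AddCommMonoid carrier

instance (M : CMon) : AddCommMonoid M.carrier := M.str

/-- The category of commutative monoids; morphisms are all monoid homomorphisms. -/
instance CMon.cat : Category CMon where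
  Hom M N := M.carrier →+ N.carrier
  id M := AddMonoidHom.id M.carrier
  comp f g := AddMonoidHom.comp g f
  id_comp _ := rfl
  comp_id _ := rfl
  assoc _ _ _ := rfl

/-- A simplicial monoid (isomorphic to `ℕ^n` for some `n`) with a distinguished order-unit. -/
structure Simp where
  carrier : Type
  str : AddCommMonoid carrier
  simplicial : ∃ n : ℕ, Nonempty (carrier ≃+ (Fin n → ℕ))
  unit : carrier
  orderUnit : ∀ x : carrier, ∃ (y : carrier) (n : ℕ), x + y = n • unit

instance (M : Simp) : AddCommMonoid M.carrier := M.str

/-- A normalized embedding: an injective monoid homomorphism sending the distinguished order-unit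
to the distinguished order-unit. -/
structure Emb (M N : Simp) where
  f : M.carrier →+ N.carrier
  inj : Function.Injective f
  unit : f M.unit = N.unit

/-- The identity embedding. -/
def Emb.id (M : Simp) : Emb M M := ⟨AddMonoidHom.id M.carrier, Function.injective_id, rfl⟩

theorem Emb.comp_unit {M N P : Simp} (f : Emb M N) (g : Emb N P) :
    g.f.comp f.f M.unit = P.unit := by
  show g.f (f.f M.unit) = P.unit
  rw [f.unit, g.unit]

/-- The composite embedding. -/
def Emb.comp {M N P : Simp} (f : Emb M N) (g : Emb N P) : Emb M P :=
  ⟨g.f.comp f.f, g.inj.comp f.inj, Emb.comp_unit f g⟩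

/-- The category of simplicial monoids with order-unit; the morphisms are the normalized
embeddings. -/
instance Simp.cat : Category Simp where
  Hom := Emb
  id := Emb.id
  comp := Emb.comp
  id_comp _ := rfl
  comp_id _ := rfl
  assoc _ _ _ := rfl

/-- The inclusion functor into commutative monoids. -/
def incl : Simp ⥤ CMon where
  obj M := ⟨M.carrier, M.str⟩
  map f := f.f
  map_id _ := rfl
  map_comp _ _ := rfl

/-- The exchange condition for a not necessarily unital ring (Ara): for every `x` there are
an idempotent `e` and elements `r`, `s` with `e = x r = s + x - x s`. For a ring with unit it says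
that there is an idempotent `e ∈ xR` with `1 - e ∈ (1 - x)R`. -/
def IsExchange (R : Type) [NonUnitalRing R] : Prop :=
  ∀ x : R, ∃ e r s : R, e * e = e ∧ e = x * r ∧ e = s + x - x * s

/-- An exchange ring, not necessarily with unit. -/
structure Exch where
  carrier : Type
  str : NonUnitalRing carrier
  exch : IsExchange carrier

instance (R : Exch) : NonUnitalRing R.carrier := R.str

/-- The category of exchange rings; morphisms are the ring homomorphisms (nothing about units). -/
instance Exch.cat : Category Exch where
  Hom R S := R.carrier →ₙ+* S.carrier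
  id R := NonUnitalRingHom.id R.carrier
  comp f g := NonUnitalRingHom.comp g f
  id_comp _ := rfl
  comp_id _ := rfl
  assoc _ _ _ := rfl

theorem V_id (R : Exch) : VV.map (NonUnitalRingHom.id R.carrier) =
    AddMonoidHom.id (VV R.carrier) := by
  apply AddMonoidHom.ext
  rintro ⟨a⟩
  rfl

theorem V_comp {R S T : Exch} (f : R.carrier →ₙ+* S.carrier) (g : S.carrier →ₙ+* T.carrier) :
    VV.map (NonUnitalRingHom.comp g f) = (VV.map g).comp (VV.map f) := by
  apply AddMonoidHom.ext
  rintro ⟨a⟩
  rfl

/-- The functor `V` from exchange rings to commutative monoids. -/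
def V : Exch ⥤ CMon where
  obj R := ⟨VV R.carrier, VV.monoid R.carrier⟩
  map φ := VV.map φ
  map_id := V_id
  map_comp := V_comp

/-- A morphism of `Exch` as a ring homomorphism. -/
def Exch.hom {R S : Exch} (f : R ⟶ S) : R.carrier →ₙ+* S.carrier := f

/-- A morphism of `CMon` as a monoid homomorphism. -/
def CMon.hom {M N : CMon} (f : M ⟶ N) : M.carrier →+ N.carrier := f

/-- The class in `V(R)` of an idempotent element `a` of `R`. -/
def cls {R : Type} [NonUnitalRing R] (a : R) (h : a * a = a) : VV R :=
  VV.mk ⟨1, fun _ _ => a, by
    ext i j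
    rw [Matrix.mul_apply, Finset.univ_unique, Finset.sum_singleton]
    exact h⟩

/-- `a` is an identity element of the ring `R`. -/
def IsOne {R : Exch} (a : R.carrier) : Prop := ∀ x : R.carrier, a * x = x ∧ x * a = x

/-- The rings `Ψ(M)` have identity elements preserved by the maps `Ψ(f)`. -/
def Unital (Ψ : Simp ⥤ Exch) (one : ∀ M : Simp, (Ψ.obj M).carrier) : Prop :=
  (∀ M : Simp, IsOne (one M)) ∧
    ∀ (M N : Simp) (f : M ⟶ N), Exch.hom (Ψ.map f) (one M) = one N

/-- The classes of the elements `one M` correspond to the order-units. -/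
def Normalized {Ψ : Simp ⥤ Exch} (one : ∀ M : Simp, (Ψ.obj M).carrier)
    (i : ∀ M : Simp, V.obj (Ψ.obj M) ⟶ incl.obj M) : Prop :=
  ∀ (M : Simp) (h : one M * one M = one M), CMon.hom (i M) (cls (one M) h) = M.unit

/-- For unital rings the condition is the usual one. -/
theorem isExchange_iff (R : Type) [Ring R] : IsExchange R ↔
    ∀ x : R, ∃ e : R, e * e = e ∧ (∃ r, e = x * r) ∧ ∃ t, 1 - e = (1 - x) * t := by
  constructor
  · intro h x
    obtain ⟨e, r, s, h1, h2, h3⟩ := h x
    refine ⟨e, h1, ⟨r, h2⟩, 1 - s, ?_⟩
    rw [h3]
    noncomm_ring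
  · intro h x
    obtain ⟨e, h1, ⟨r, h2⟩, ⟨t, h3⟩⟩ := h x
    refine ⟨e, r, 1 - t, h1, h2, ?_⟩
    have h4 : e = 1 - (1 - x) * t := by rw [← h3]; abel
    rw [h4]
    noncomm_ring

end Pool.Agent.H494R3.EX
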