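import Pool.Agent.H494R3.EX.A5
import Pool.Agent.H494R3.EX.Defs

set_option autoImplicit false

/-!
The functor and the natural isomorphism.
-/

namespace Pool.Agent.H494R3.EX

open CategoryTheory
open Pool.Agent.H494R3.VR (VV)

/-- the functor -/
noncomputable def Psi : Simp ⥤ Exch where
  obj M := ⟨Rg M.carrier M.unit, inferInstance, by
    obtain ⟨N, ⟨e⟩⟩ := M.simplicial
    exact rg_exch e M.unit⟩
  map f := rmp f.f f.inj f.unit
  map_id M := by
    apply NonUnitalRingHom.ext
    intro a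
    exact rmp_id Function.injective_id rfl a
  map_comp {M M' M''} f g := by
    apply NonUnitalRingHom.ext
    intro a
    exact rmp_comp f.f f.inj g.f g.inj (f ≫ g).inj f.unit g.unit (f ≫ g).unit a

theorem eta_bij (M : Simp) : Function.Bijective (eta M.orderUnit) := by
  obtain ⟨N, ⟨e⟩⟩ := M.simplicial
  exact ⟨eta_inj M.orderUnit e, eta_surj M.orderUnit e⟩

noncomputable def etaEquiv (M : Simp) : M.carrier ≃+ VV (Rg M.carrier M.unit) :=
  AddEquiv.ofBijective (eta M.orderUnit) (eta_bij M)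

noncomputable def etaIso (M : Simp) : incl.obj M ≅ (Psi ⋙ V).obj M where
  hom := (etaEquiv M).toAddMonoidHom
  inv := (etaEquiv M).symm.toAddMonoidHom
  hom_inv_id := by
    apply AddMonoidHom.ext
    intro x
    exact (etaEquiv M).symm_apply_apply x
  inv_hom_id := by
    apply AddMonoidHom.ext
    intro x
    exact (etaEquiv M).apply_symm_apply x

noncomputable def mainIso : Psi ⋙ V ≅ incl :=
  (NatIso.ofComponents (F := incl) (G := Psi ⋙ V) etaIso (by
    intro M M' f
    apply AddMonoidHom.ext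
    intro m
    exact (eta_nat f.f f.inj f.unit M.orderUnit M'.orderUnit m).symm)).symm

theorem pres_one {M : Type} [AddCommMonoid M] (u : M) (h : (1 : Rg M u) * 1 = 1) :
    ∃ E : Pool.Agent.H494R3.VR.Idem (Rg M u), Pres E.mat (Ob.mk u) ∧ VV.mk E = cls 1 h := by
  refine ⟨⟨1, fun _ _ => 1, ?_⟩, ?_, rfl⟩
  · ext i j
    rw [Matrix.mul_apply, Finset.univ_unique, Finset.sum_singleton]
    exact h
  · refine ⟨fun _ => 𝟙 _, fun _ => 𝟙 _, ?_, ?_⟩
    · ext i j
      exact (Category.id_comp (𝟙 (Ob.mk u))).symm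
    · exact (Fin.sum_univ_one (fun _ : Fin 1 => 𝟙 (Ob.mk u) ≫ 𝟙 (Ob.mk u))).trans
        (Category.id_comp _)

theorem main : ∃ (Ψ : Simp ⥤ Exch) (i : Ψ ⋙ V ≅ incl) (one : ∀ M : Simp, (Ψ.obj M).carrier),
    Unital Ψ one ∧ Normalized one i.hom.app := by
  refine ⟨Psi, mainIso, fun M => (1 : Rg M.carrier M.unit), ⟨?_, ?_⟩, ?_⟩
  · intro M x
    exact ⟨one_mul (M := Rg M.carrier M.unit) x, mul_one (M := Rg M.carrier M.unit) x⟩
  · intro M N f
    exact Subtype.ext (Cmap_one f.f f.inj f.unit)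
  · intro M h
    obtain ⟨E, hE1, hE2⟩ := pres_one M.unit h
    have h1 : eta M.orderUnit M.unit = cls (1 : Rg M.carrier M.unit) h := by
      rw [← hE2]; exact eta_eq M.orderUnit hE1
    have h2 : (etaEquiv M).symm (eta M.orderUnit M.unit) = M.unit :=
      (etaEquiv M).symm_apply_apply M.unit
    rw [h1] at h2
    exact h2

end Pool.Agent.H494R3.EX
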